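import Pool.Agent.Y451.AM.Main

set_option autoImplicit false

/-!
# Measurable and measure-preserving solvability of local problems agree on amenable groups
-/

open MeasureTheory

noncomputable section

namespace Pool.Agent.Results.MP_afd974_lc.AmenableGroups

/-- amenability: for every finite `S` and `ε > 0` there is a nonempty finite set `K` with
`|{v ∈ K : s v ∉ K}| ≤ ε |K|` for all `s ∈ S` -/
def Amenable (Γ : Type) [Group Γ] : Prop :=
  ∀ (S : Finset Γ) (ε : ℝ), 0 < ε → ∃ K : Finset Γ, K.Nonempty ∧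
    ∀ s ∈ S, (({v : Γ | v ∈ K ∧ s * v ∉ K}.ncard : ℕ) : ℝ) ≤ ε * (K.card : ℝ)

/-- there is a measurable labelling of `X` with almost all patterns in `A` -/
def Solvable {Γ : Type} {k : ℕ} {W : Finset Γ} (A : Set (W → Fin k))
    (X : Type) [MeasurableSpace X] (a : Γ → X → X) (μ : Measure X) : Prop :=
  ∃ f : X → Fin k, Measurable f ∧ ∀ᵐ x ∂μ, (fun g : W => f (a g.1 x)) ∈ A

/-- the class `MEASURE(Γ)`: sets of patterns `A` with window `W` and `k` labels -/
def MEASURE (Γ : Type) [Group Γ] (k : ℕ) (W : Finset Γ) : Set (Set (W → Fin k)) :=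
  {A | ∀ (X : Type) [MeasurableSpace X] [StandardBorelSpace X] [MulAction Γ X],
    (∀ g : Γ, Measurable (fun x : X => g • x)) → (∀ (g : Γ) (x : X), g • x = x → g = 1) →
    ∀ μ : Measure X, IsProbabilityMeasure μ → Solvable A X (fun g x => g • x) μ}

/-- the class `MEASURE_pmp(Γ)` -/
def MEASUREpmp (Γ : Type) [Group Γ] (k : ℕ) (W : Finset Γ) : Set (Set (W → Fin k)) :=
  {A | ∀ (X : Type) [MeasurableSpace X] [StandardBorelSpace X] [MulAction Γ X],
    (∀ g : Γ, Measurable (fun x : X => g • x)) → (∀ (g : Γ) (x : X), g • x = x → g = 1) →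
    ∀ μ : Measure X, IsProbabilityMeasure μ → (∀ g : Γ, μ.map (fun x : X => g • x) = μ) →
      Solvable A X (fun g x => g • x) μ}

/-- the free part of the shift on `[0,1]^Γ` -/
abbrev FreePart (Γ : Type) [Group Γ] : Type :=
  {x : Γ → unitInterval // ∀ g : Γ, (fun h => x (h * g)) = x → g = 1}

/-- the shift on the free part -/
def shift {Γ : Type} [Group Γ] (g : Γ) (x : FreePart Γ) : FreePart Γ :=
  ⟨fun h => x.1 (h * g), (Pool.Agent.Y451.AM.shF g x).2⟩

/-- the product of the Lebesgue measures of `[0,1]`, on the free part -/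
def bernoulli (Γ : Type) [Group Γ] : Measure (FreePart Γ) :=
  Measure.comap Subtype.val (Measure.infinitePi fun _ : Γ => (volume : Measure unitInterval))

/-- the class `FIID(Γ)` -/
def FIID (Γ : Type) [Group Γ] (k : ℕ) (W : Finset Γ) : Set (Set (W → Fin k)) :=
  {A | Solvable A (FreePart Γ) shift (bernoulli Γ)}

/-- For every countable amenable group, a local problem that has a measurable solution on the free
part of the Bernoulli shift (in particular, one that has a measurable solution on every free
measure-preserving action) has a measurable solution on every free Borel action for every Borel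
probability measure. The groups `ℤ ^ d` are amenable. -/
theorem result : (∀ (Γ : Type) [Group Γ] [Countable Γ], Amenable Γ →
      IsProbabilityMeasure (bernoulli Γ) ∧ ∀ (k : ℕ) (W : Finset Γ),
        MEASUREpmp Γ k W = MEASURE Γ k W ∧ FIID Γ k W = MEASURE Γ k W) ∧
    ∀ d : ℕ, Amenable (Multiplicative (Fin d → ℤ)) := by
  refine ⟨?_, Pool.Agent.Y451.AM.amen_zn⟩
  intro Γ _ _ hAm
  obtain ⟨hpr, hstd, hact, hinv⟩ := Pool.Agent.Y451.AM.bernoulli (Γ := Γ) hAm
  refine ⟨hpr, fun k W => ?_⟩
  have h1 : FIID Γ k W ⊆ MEASURE Γ k W := by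
    intro A hA X _ _ _ hm hf μ hμ
    refine Pool.Agent.Y451.AM.main hAm A hA X (fun g x => g • x) ⟨?_, ?_, hm, hf⟩ μ
    · exact fun x => one_smul Γ x
    · exact fun g h x => mul_smul g h x
  have h2 : MEASURE Γ k W ⊆ MEASUREpmp Γ k W := by
    intro A hA X _ _ _ hm hf μ hμ _
    exact hA X hm hf μ hμ
  have h3 : MEASUREpmp Γ k W ⊆ FIID Γ k W := by
    intro A hA
    letI : MulAction Γ (FreePart Γ) :=
      { smul := fun g x => shift g x
        one_smul := hact.one
        mul_smul := hact.mul }
    exact hA (FreePart Γ) hact.meas hact.free (bernoulli Γ) hpr hinv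
  exact ⟨Set.Subset.antisymm (h3.trans h1) h2, Set.Subset.antisymm h1 (h2.trans h3)⟩

end Pool.Agent.Results.MP_afd974_lc.AmenableGroups

end
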